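import Pool.Agent.H48.PM.Sq

set_option autoImplicit false

namespace Pool.Agent.Results.MP_9bc131_co.LeastPermanentBounds

theorem result (n : ℕ) (h1 : 1 ≤ n) :
    ∃ m : ℤ, IsLeast {p : ℤ | 0 < p ∧ ∃ M : Matrix (Fin n) (Fin n) ℤ,
        (∀ i j, M i j = 1 ∨ M i j = -1) ∧ M.permanent = p} m ∧
      2 ^ (n - Nat.log 2 (n + 1)) ≤ m ∧
      (n % 2 = 0 → m ≤ 2 ^ (n - min (Nat.log 2 n) 5)) ∧
      (n % 2 = 1 → (n % 32 ≠ 31 ∨ n = 31) → m ≤ 2 ^ (n - padicValNat 2 (n + 1))) :=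
  Pool.Agent.H48.PM.final' n h1

end Pool.Agent.Results.MP_9bc131_co.LeastPermanentBounds
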